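import Pool.Agent.N633.P1.Points
import Pool.Agent.N745.T1.Third

/-!
# Points of the projective line whose height is large compared with the truncated counting function

Let `α_1, …, α_q` be `q ≥ 3` distinct points of the projective line over `ℚ` and `S` a finite set of
primes. The number of all points `x` with truncated counting function `N(x) ≤ log X` is of the order
`X ^ (2/q)` (starting result `AllHeightsSharp`). Here the points are considered for which the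
height is large compared with `N(x)`, the strongest violations of the inequality of Q1. For every
`ε > 0` there is an `M` such that at most `C X ^ (1/q + ε)` points with `N(x) ≤ log X` have a height
`h(x)` between `M log X` and `k log X`, for every `k`; and for `κ ≤ 1 / M` at most
`C B ^ (κ (1/q + ε))` points of height at most `log B` have `N(x) ≤ κ h(x)`.

Proof: three of the `q` linear forms with the smallest radicals satisfy a linear relation with
constant coefficients, which gives an abc-triple with radical at most `C exp (3/q N(x))`; the number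
of the abc-triples with a very small radical is bounded by the theorem `count_third` of helper745
(`Pool.Agent.N745.T1.Third`).
-/

set_option autoImplicit false

namespace Pool.Agent.Results.MP_4d5ce1_nt.LargeHeightPoints

open Finset

/-- Normalised coprime integer coordinates: each point `[x₀ : x₁]` of the projective line over `ℚ`
has exactly one such pair. -/
def Nrm (x : ℤ × ℤ) : Prop := IsCoprime x.1 x.2 ∧ (0 < x.2 ∨ x.2 = 0 ∧ 0 < x.1)

/-- The sum over the primes `p ∉ S` and over `ℓ` of the truncated local heights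
`λ⁽¹⁾_p(α_ℓ, x)`: for coprime coordinates of `x` and `α_ℓ` this is `log p` if
`p ∣ x₀ a₁ - x₁ a₀` and `0` otherwise. -/
noncomputable def N1 {q : ℕ} (α : Fin q → ℤ × ℤ) (S : Finset ℕ) (x : ℤ × ℤ) : ℝ :=
  ∑ i, ∑ p ∈ (x.1 * (α i).2 - x.2 * (α i).1).natAbs.primeFactors \ S, Real.log p

/-- The logarithmic height of the point with coprime coordinates `x`. -/
noncomputable def height (x : ℤ × ℤ) : ℝ := Real.log (max |(x.1 : ℝ)| |(x.2 : ℝ)|)

/-- The points `x`, different from all the `α_ℓ`, with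
`∑_{p ∉ S} ∑_ℓ λ⁽¹⁾_p(α_ℓ, x) ≤ log X` and `M log X ≤ h(x) ≤ k log X`. -/
def Pts {q : ℕ} (α : Fin q → ℤ × ℤ) (S : Finset ℕ) (M k : ℕ) (X : ℝ) : Set (ℤ × ℤ) :=
  {x | Nrm x ∧ (∀ i, x.1 * (α i).2 - x.2 * (α i).1 ≠ 0) ∧ N1 α S x ≤ Real.log X ∧
    M * Real.log X ≤ height x ∧ height x ≤ k * Real.log X}

/-- The points `x` of height at most `log B`, different from all the `α_ℓ`, with
`∑_{p ∉ S} ∑_ℓ λ⁽¹⁾_p(α_ℓ, x) ≤ κ h(x)`. -/
def Exc {q : ℕ} (α : Fin q → ℤ × ℤ) (S : Finset ℕ) (κ B : ℝ) : Set (ℤ × ℤ) :=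
  {x | Nrm x ∧ (∀ i, x.1 * (α i).2 - x.2 * (α i).1 ≠ 0) ∧ height x ≤ Real.log B ∧
    N1 α S x ≤ κ * height x}

/-- the linear forms -/
def FL {q : ℕ} (α : Fin q → ℤ × ℤ)
    (hα : ∀ i j, i ≠ j → (α i).1 * (α j).2 ≠ (α j).1 * (α i).2) : Pool.Agent.TH867.QF.Fm q where
  u i := (α i).2
  w i := - (α i).1
  res i j hij h0 := hα i j hij (by linarith)

open Pool.Agent.TH867.QF in
theorem ev_eq {q : ℕ} (α : Fin q → ℤ × ℤ)
    (hα : ∀ i j, i ≠ j → (α i).1 * (α j).2 ≠ (α j).1 * (α i).2) (x : ℤ × ℤ) (i : Fin q) :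
    ev (FL α hα) x i = x.1 * (α i).2 - x.2 * (α i).1 := by
  unfold ev FL
  ring

open Pool.Agent.TH867.QF in
theorem va_eq {q : ℕ} (α : Fin q → ℤ × ℤ)
    (hα : ∀ i j, i ≠ j → (α i).1 * (α j).2 ≠ (α j).1 * (α i).2) (x : ℤ × ℤ) (i : Fin q) :
    va (FL α hα) x i = (x.1 * (α i).2 - x.2 * (α i).1).natAbs := by
  unfold va
  rw [ev_eq]

theorem sdiff_le (A S : Finset ℕ) :
    ∑ p ∈ A, Real.log (p : ℝ) ≤ ∑ p ∈ A \ S, Real.log (p : ℝ) + ∑ p ∈ S, Real.log (p : ℝ) := by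
  classical
  have hf : ∀ q : ℕ, 0 ≤ Real.log (q : ℝ) := fun q => Real.log_natCast_nonneg q
  rw [← Finset.sum_sdiff (Finset.inter_subset_left : A ∩ S ⊆ A)]
  have e : A \ (A ∩ S) = A \ S := by
    ext p; simp only [Finset.mem_sdiff, Finset.mem_inter]; tauto
  rw [e]
  have := Finset.sum_le_sum_of_subset_of_nonneg (f := fun p : ℕ => Real.log (p : ℝ))
    (Finset.inter_subset_right : A ∩ S ⊆ S) fun p _ _ => hf p
  linarith

open Pool.Agent.TH867.QF Pool.Agent.N633.P1 in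
theorem lr_sum {q : ℕ} (α : Fin q → ℤ × ℤ)
    (hα : ∀ i j, i ≠ j → (α i).1 * (α j).2 ≠ (α j).1 * (α i).2) (S : Finset ℕ) (x : ℤ × ℤ) :
    ∑ i, lr (va (FL α hα) x i) ≤ N1 α S x + (q : ℝ) * ∑ p ∈ S, Real.log (p : ℝ) := by
  classical
  have h1 : ∀ i, lr (va (FL α hα) x i) ≤
      ∑ p ∈ (x.1 * (α i).2 - x.2 * (α i).1).natAbs.primeFactors \ S, Real.log (p : ℝ) +
        ∑ p ∈ S, Real.log (p : ℝ) := by
    intro i
    rw [va_eq]
    exact sdiff_le _ _
  refine (Finset.sum_le_sum fun i _ => h1 i).trans (le_of_eq ?_)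
  rw [Finset.sum_add_distrib, Finset.sum_const, Finset.card_univ, Fintype.card_fin, nsmul_eq_mul]
  rfl

theorem ht_eq (x : ℤ × ℤ) : (Pool.Agent.TH867.QF.ht x : ℝ) = max |(x.1 : ℝ)| |(x.2 : ℝ)| := by
  unfold Pool.Agent.TH867.QF.ht
  rw [Nat.cast_max, Nat.cast_natAbs, Nat.cast_natAbs]
  push_cast
  rfl

theorem height_eq (x : ℤ × ℤ) : height x = Real.log (Pool.Agent.TH867.QF.ht x) := by
  rw [ht_eq]; rfl

theorem exc_finite {q : ℕ} (α : Fin q → ℤ × ℤ) (S : Finset ℕ) (κ B : ℝ) (hB : 0 < B) :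
    (Exc α S κ B).Finite := by
  refine Set.Finite.subset (Finset.finite_toSet ((Finset.Icc (-(⌊B⌋₊ : ℤ)) ⌊B⌋₊) ×ˢ
    (Finset.Icc (-(⌊B⌋₊ : ℤ)) ⌊B⌋₊))) ?_
  rintro x ⟨⟨h1, h2⟩, -, h3, -⟩
  have hpos : (0 : ℝ) < max |(x.1 : ℝ)| |(x.2 : ℝ)| := by
    rcases h2 with h2 | h2
    · refine lt_max_of_lt_right (abs_pos.2 ?_)
      exact_mod_cast h2.ne'
    · refine lt_max_of_lt_left (abs_pos.2 ?_)
      exact_mod_cast h2.2.ne'
  have h4 : max |(x.1 : ℝ)| |(x.2 : ℝ)| ≤ B := (Real.log_le_log_iff hpos hB).1 h3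
  have h5 : x.1.natAbs ≤ ⌊B⌋₊ := by
    refine Nat.le_floor ?_
    rw [Nat.cast_natAbs]
    push_cast
    exact (le_max_left _ _).trans h4
  have h6 : x.2.natAbs ≤ ⌊B⌋₊ := by
    refine Nat.le_floor ?_
    rw [Nat.cast_natAbs]
    push_cast
    exact (le_max_right _ _).trans h4
  rw [Finset.mem_coe, Finset.mem_product, Finset.mem_Icc, Finset.mem_Icc]
  omega

/-- the bound by height -/
theorem by_height (ε : ℝ) (hε : 0 < ε) (hε1 : ε ≤ 1) : ∃ κ0 : ℝ, 0 < κ0 ∧ ∀ q : ℕ, 3 ≤ q →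
    ∀ α : Fin q → ℤ × ℤ, (∀ i j, i ≠ j → (α i).1 * (α j).2 ≠ (α j).1 * (α i).2) →
    ∀ S : Finset ℕ, ∀ κ : ℝ, 0 < κ → κ ≤ κ0 → ∃ C : ℝ, 0 < C ∧ ∀ B : ℝ, 1 ≤ B →
      (Exc α S κ B).Finite ∧ ((Exc α S κ B).ncard : ℝ) ≤ C * B ^ (κ * (1 / (q : ℝ) + ε)) := by
  classical
  obtain ⟨lam0, hl0, -, hmain⟩ := Pool.Agent.N745.T1.count_third (ε / 2) (by positivity)
  refine ⟨lam0 / 2, by positivity, ?_⟩
  intro q hq α hα S κ hκ hκ0
  obtain ⟨d, rfl⟩ : ∃ d, q = d + 3 := ⟨q - 3, by omega⟩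
  obtain ⟨Q, hQ⟩ : ∃ Q : ℝ, Q = (d : ℝ) + 3 := ⟨_, rfl⟩
  have hQ3 : 3 ≤ Q := by rw [hQ]; linarith [(Nat.cast_nonneg d : (0 : ℝ) ≤ d)]
  have hQ0 : 0 < Q := by linarith
  have hQc : ((d + 3 : ℕ) : ℝ) = Q := by rw [hQ]; push_cast; ring
  obtain ⟨κ', hκ'⟩ : ∃ κ' : ℝ, κ' = 3 / Q * κ := ⟨_, rfl⟩
  have h3Q : 3 / Q ≤ 1 := by rw [div_le_one hQ0]; exact hQ3
  have hκ'0 : 0 < κ' := by rw [hκ']; positivity
  have hκ'1 : κ' ≤ κ := by
    rw [hκ']
    calc 3 / Q * κ ≤ 1 * κ := mul_le_mul_of_nonneg_right h3Q hκ.le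
      _ = κ := one_mul κ
  obtain ⟨η', hη'⟩ : ∃ η' : ℝ, η' = min (lam0 / 2) (κ * ε / 8) := ⟨_, rfl⟩
  have hη'0 : 0 < η' := by rw [hη']; exact lt_min (by positivity) (by positivity)
  have hη'1 : η' ≤ lam0 / 2 := by rw [hη']; exact min_le_left _ _
  have hη'2 : η' ≤ κ * ε / 8 := by rw [hη']; exact min_le_right _ _
  obtain ⟨lam, hlam⟩ : ∃ lam : ℝ, lam = κ' + η' := ⟨_, rfl⟩
  have hst := hmain lam (by rw [hlam]; positivity) (by rw [hlam]; linarith)
  obtain ⟨cS, hcS⟩ : ∃ cS : ℝ, cS = 3 / Q * (Q * ∑ p ∈ S, Real.log (p : ℝ)) := ⟨_, rfl⟩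
  obtain ⟨C, hC0, hC⟩ := Pool.Agent.N633.P1.points_count (FL α hα) (κ := κ') (s := cS) hst
    hκ'0.le (by rw [hlam]; linarith) (by rw [hlam]; positivity) (ε := κ * ε / 4) (by positivity)
  refine ⟨C, hC0, fun B hB => ⟨exc_finite α S κ B (by linarith), ?_⟩⟩
  have hB0 : 0 < B := by linarith
  have hfin := exc_finite α S κ B hB0
  have hB1 : 1 ≤ ⌊B⌋₊ := Nat.le_floor (by exact_mod_cast hB)
  have h1 := hC ⌊B⌋₊ hB1 hfin.toFinset (fun P hP => by
    rw [Set.Finite.mem_toFinset] at hP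
    obtain ⟨⟨g1, g2⟩, g3, g4, g5⟩ := hP
    have hpt : Pool.Agent.TH867.QF.Pt (FL α hα) P := ⟨g1, fun i => by rw [ev_eq]; exact g3 i⟩
    have hhp := Pool.Agent.TH867.QF.ht_pos hpt
    have hhpR : (0 : ℝ) < Pool.Agent.TH867.QF.ht P := by exact_mod_cast hhp
    refine ⟨hpt, ?_, ?_⟩
    · refine Nat.le_floor ?_
      rw [height_eq] at g4
      exact (Real.log_le_log_iff hhpR hB0).1 g4
    · obtain ⟨a, b, c, hab, hbc, hac, hle⟩ := Pool.Agent.N633.P1.three_light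
        (fun i => Pool.Agent.N633.P1.lr (Pool.Agent.TH867.QF.va (FL α hα) P i))
      refine ⟨a, b, c, hab, hbc, hac, hle.trans ?_⟩
      have h2 := lr_sum α hα S P
      rw [hQc] at h2
      rw [← hQ]
      have h3 : 0 ≤ 3 / Q := by positivity
      rw [height_eq] at g5
      calc 3 / Q * ∑ i, Pool.Agent.N633.P1.lr (Pool.Agent.TH867.QF.va (FL α hα) P i)
          ≤ 3 / Q * (κ * Real.log (Pool.Agent.TH867.QF.ht P) +
            Q * ∑ p ∈ S, Real.log (p : ℝ)) := mul_le_mul_of_nonneg_left (by linarith) h3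
        _ = κ' * Real.log (Pool.Agent.TH867.QF.ht P) + cS := by rw [hκ', hcS]; ring)
  rw [← Set.ncard_eq_toFinset_card _ hfin] at h1
  refine h1.trans ?_
  apply mul_le_mul_of_nonneg_left _ hC0.le
  have hfl : (⌊B⌋₊ : ℝ) ≤ B := Nat.floor_le hB0.le
  have hexp0 : 0 ≤ (1 / 3 + ε / 2) * lam + κ * ε / 4 := by rw [hlam]; positivity
  refine (Real.rpow_le_rpow (by positivity) hfl hexp0).trans ?_
  apply Real.rpow_le_rpow_of_exponent_le hB
  rw [hQc, hlam, hκ']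
  have e1 : 1 / 3 * (3 / Q * κ) = κ * (1 / Q) := by ring
  have e2 : ε / 2 * (3 / Q * κ) ≤ ε / 2 * κ := by
    apply mul_le_mul_of_nonneg_left _ (by positivity)
    rw [← hκ']
    exact hκ'1
  have e3 : (1 / 3 + ε / 2) * η' ≤ 1 * (κ * ε / 8) := by
    apply mul_le_mul (by linarith) hη'2 hη'0.le (by norm_num)
  have e4 : 0 ≤ κ * ε := by positivity
  nlinarith

theorem one_form (ε : ℝ) (hε : 0 < ε) : ∃ M : ℕ, 1 ≤ M ∧ ∀ q : ℕ, 3 ≤ q →
    ∀ α : Fin q → ℤ × ℤ, (∀ i j, i ≠ j → (α i).1 * (α j).2 ≠ (α j).1 * (α i).2) →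
    ∀ S : Finset ℕ, ∀ κ : ℝ, 0 < κ → κ * M ≤ 1 → ∃ C : ℝ, 0 < C ∧ ∀ B : ℝ, 1 ≤ B →
      (Exc α S κ B).Finite ∧ ((Exc α S κ B).ncard : ℝ) ≤ C * B ^ (κ * (1 / (q : ℝ) + ε)) := by
  obtain ⟨κ0, hκ0, h⟩ := by_height (min ε 1) (lt_min hε one_pos) (min_le_right _ _)
  obtain ⟨M, hM⟩ := exists_nat_ge (1 / κ0)
  have hM0 : (0 : ℝ) < M := lt_of_lt_of_le (by positivity) hM
  refine ⟨M, by exact_mod_cast hM0, ?_⟩
  intro q hq α hα S κ hκ hκM
  obtain ⟨C, hC0, hC⟩ := h q hq α hα S κ hκ (by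
    rw [div_le_iff₀ hκ0] at hM
    by_contra hlt
    rw [not_le] at hlt
    have : 1 < κ * M := by
      calc (1 : ℝ) ≤ M * κ0 := hM
        _ < M * κ := mul_lt_mul_of_pos_left hlt hM0
        _ = κ * M := mul_comm _ _
    linarith)
  refine ⟨C, hC0, fun B hB => ⟨(hC B hB).1, (hC B hB).2.trans ?_⟩⟩
  apply mul_le_mul_of_nonneg_left _ hC0.le
  apply Real.rpow_le_rpow_of_exponent_le hB
  apply mul_le_mul_of_nonneg_left _ hκ.le
  linarith [min_le_left ε 1]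

/-- **Points of large height.** For every `ε > 0` there is an `M` such that for all `q ≥ 3`, all
distinct points `α_1, …, α_q` of `ℙ¹(ℚ)` (coprime integer coordinates) and all finite sets `S` of
primes: (1) for every `k` there is `C` such that for all `X ≥ 1` at most `C X ^ (1/q + ε)` points
`x ∈ ℙ¹(ℚ)` have `∑_{p ∉ S} ∑_ℓ λ⁽¹⁾_p(α_ℓ, x) ≤ log X` and `M log X ≤ h(x) ≤ k log X`; (2) for every
positive `κ ≤ 1 / M` there is `C` such that for all `B ≥ 1` at most `C B ^ (κ (1/q + ε))` points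
`x ∈ ℙ¹(ℚ)` of height at most `log B` have `∑_{p ∉ S} ∑_ℓ λ⁽¹⁾_p(α_ℓ, x) ≤ κ h(x)`. -/
theorem result (ε : ℝ) (hε : 0 < ε) : ∃ M : ℕ, 1 ≤ M ∧ ∀ q : ℕ, 3 ≤ q →
    ∀ α : Fin q → ℤ × ℤ, (∀ i, IsCoprime (α i).1 (α i).2) →
    (∀ i j, i ≠ j → (α i).1 * (α j).2 ≠ (α j).1 * (α i).2) → ∀ S : Finset ℕ,
    (∀ k : ℕ, ∃ C : ℝ, 0 < C ∧ ∀ X : ℝ, 1 ≤ X → (Pts α S M k X).Finite ∧
      ((Pts α S M k X).ncard : ℝ) ≤ C * X ^ (1 / (q : ℝ) + ε)) ∧
    (∀ κ : ℝ, 0 < κ → κ * M ≤ 1 → ∃ C : ℝ, 0 < C ∧ ∀ B : ℝ, 1 ≤ B → (Exc α S κ B).Finite ∧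
      ((Exc α S κ B).ncard : ℝ) ≤ C * B ^ (κ * (1 / (q : ℝ) + ε))) := by
  classical
  obtain ⟨e, he⟩ : ∃ e : ℝ, e = min ε 1 := ⟨_, rfl⟩
  have he0 : 0 < e := by rw [he]; exact lt_min hε one_pos
  have he1 : e ≤ 1 := by rw [he]; exact min_le_right _ _
  have heε : e ≤ ε := by rw [he]; exact min_le_left _ _
  obtain ⟨M, hM1, hM⟩ := one_form (e / 2) (by positivity)
  have hM1R : (1 : ℝ) ≤ M := by exact_mod_cast hM1
  refine ⟨M, hM1, ?_⟩
  intro q hq α _hcop hα S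
  have hq3 : (3 : ℝ) ≤ q := by exact_mod_cast hq
  have hq0 : (0 : ℝ) < q := by linarith
  refine ⟨?_, ?_⟩
  · intro k
    obtain ⟨δ, hδ⟩ : ∃ δ : ℝ, δ = e / 2 := ⟨_, rfl⟩
    have hδ0 : 0 < δ := by rw [hδ]; positivity
    obtain ⟨J, hJ⟩ := exists_nat_ge ((k : ℝ) / δ)
    have htj : ∀ j : ℕ, 0 < (M : ℝ) + j * δ := fun j => by positivity
    have hcj : ∀ j : ℕ, ∃ C : ℝ, 0 < C ∧ ∀ B : ℝ, 1 ≤ B →
        (Exc α S (1 / ((M : ℝ) + j * δ)) B).Finite ∧
        ((Exc α S (1 / ((M : ℝ) + j * δ)) B).ncard : ℝ) ≤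
          C * B ^ (1 / ((M : ℝ) + j * δ) * (1 / (q : ℝ) + e / 2)) := by
      intro j
      refine hM q hq α hα S _ (by have := htj j; positivity) ?_
      rw [div_mul_eq_mul_div, one_mul, div_le_one (htj j)]
      have : 0 ≤ (j : ℝ) * δ := by positivity
      linarith
    choose C hC0 hC using hcj
    refine ⟨∑ j ∈ Finset.range (J + 1), C j, Finset.sum_pos (fun j _ => hC0 j) ⟨0, by simp⟩,
      fun X hX => ?_⟩
    have hX0 : 0 < X := by linarith
    have hlX : 0 ≤ Real.log X := Real.log_nonneg hX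
    obtain ⟨Bj, hBj⟩ : ∃ Bj : ℕ → ℝ, Bj = fun j => X ^ ((M : ℝ) + (j + 1 : ℕ) * δ) := ⟨_, rfl⟩
    have hBj1 : ∀ j, 1 ≤ Bj j := fun j => by
      rw [hBj]
      exact Real.one_le_rpow hX (by positivity)
    have hlBj : ∀ j, Real.log (Bj j) = ((M : ℝ) + (j + 1 : ℕ) * δ) * Real.log X := fun j => by
      rw [hBj]
      exact Real.log_rpow hX0 _
    have hcov : Pts α S M k X ⊆ ⋃ j ∈ (Finset.range (J + 1) : Finset ℕ),
        Exc α S (1 / ((M : ℝ) + j * δ)) (Bj j) := by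
      rintro x ⟨g1, g2, g3, g4, g5⟩
      have hex : ∃ j : ℕ, j ≤ J ∧ ((M : ℝ) + j * δ) * Real.log X ≤ height x ∧
          height x ≤ ((M : ℝ) + (j + 1 : ℕ) * δ) * Real.log X := by
        rcases hlX.eq_or_lt with h0 | h0
        · refine ⟨0, Nat.zero_le _, ?_, ?_⟩
          · rw [← h0] at g4 ⊢
            linarith
          · rw [← h0] at g5 ⊢
            linarith
        · obtain ⟨y, hy⟩ : ∃ y : ℝ, y = (height x / Real.log X - M) / δ := ⟨_, rfl⟩
          have hy0 : 0 ≤ y := by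
            rw [hy]
            apply div_nonneg _ hδ0.le
            rw [sub_nonneg, le_div_iff₀ h0]
            exact g4
          have hxy : height x = (M + y * δ) * Real.log X := by
            rw [hy, div_mul_cancel₀ _ hδ0.ne']
            field_simp
            ring
          have hfl := Nat.floor_le hy0
          have hfl2 := Nat.lt_floor_add_one y
          refine ⟨⌊y⌋₊, ?_, ?_, ?_⟩
          · have h6 : y ≤ J := by
              refine le_trans ?_ hJ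
              rw [hy]
              apply div_le_div_of_nonneg_right _ hδ0.le
              have : height x / Real.log X ≤ k := by
                rw [div_le_iff₀ h0]
                exact g5
              linarith
            exact_mod_cast hfl.trans h6
          · rw [hxy]
            apply mul_le_mul_of_nonneg_right _ h0.le
            have := mul_le_mul_of_nonneg_right hfl hδ0.le
            linarith
          · rw [hxy]
            apply mul_le_mul_of_nonneg_right _ h0.le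
            push_cast
            have := mul_le_mul_of_nonneg_right hfl2.le hδ0.le
            linarith
      obtain ⟨j, hj, h1, h2⟩ := hex
      rw [Set.mem_iUnion₂]
      refine ⟨j, Finset.mem_range.2 (by omega), g1, g2, ?_, ?_⟩
      · rw [hlBj]
        exact h2
      · refine g3.trans ?_
        rw [div_mul_eq_mul_div, one_mul, le_div_iff₀ (htj j)]
        linarith
    have hfinU : (⋃ j ∈ (Finset.range (J + 1) : Finset ℕ),
        Exc α S (1 / ((M : ℝ) + j * δ)) (Bj j)).Finite :=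
      Set.Finite.biUnion (Finset.finite_toSet _) fun j _ => (hC j (Bj j) (hBj1 j)).1
    refine ⟨hfinU.subset hcov, ?_⟩
    have h1 : (Pts α S M k X).ncard ≤ ∑ j ∈ Finset.range (J + 1),
        (Exc α S (1 / ((M : ℝ) + j * δ)) (Bj j)).ncard := by
      refine (Set.ncard_le_ncard hcov hfinU).trans ?_
      exact Finset.set_ncard_biUnion_le _ _
    have h2 : ∀ j ∈ Finset.range (J + 1), ((Exc α S (1 / ((M : ℝ) + j * δ)) (Bj j)).ncard : ℝ) ≤
        C j * X ^ (1 / (q : ℝ) + ε) := by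
      intro j _
      refine (hC j (Bj j) (hBj1 j)).2.trans ?_
      apply mul_le_mul_of_nonneg_left _ (hC0 j).le
      rw [hBj]
      simp only
      rw [← Real.rpow_mul hX0.le]
      apply Real.rpow_le_rpow_of_exponent_le hX
      obtain ⟨t, ht⟩ : ∃ t : ℝ, t = (M : ℝ) + j * δ := ⟨_, rfl⟩
      have ht1 : 1 ≤ t := by
        rw [ht]
        have : 0 ≤ (j : ℝ) * δ := by positivity
        linarith
      have e1 : (M : ℝ) + (j + 1 : ℕ) * δ = t + δ := by rw [ht]; push_cast; ring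
      rw [e1, ← ht]
      have e2 : (t + δ) * (1 / t * (1 / (q : ℝ) + e / 2)) =
          (1 / (q : ℝ) + e / 2) + δ * (1 / t) * (1 / (q : ℝ) + e / 2) := by
        field_simp
      rw [e2]
      have e3 : 1 / t ≤ 1 := by rw [div_le_one (by linarith)]; exact ht1
      have e4 : 1 / (q : ℝ) + e / 2 ≤ 1 := by
        have : 1 / (q : ℝ) ≤ 1 / 3 := one_div_le_one_div_of_le (by norm_num) hq3
        linarith
      have e5 : δ * (1 / t) * (1 / (q : ℝ) + e / 2) ≤ δ * 1 * 1 := by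
        apply mul_le_mul _ e4 (by positivity) (by positivity)
        exact mul_le_mul_of_nonneg_left e3 hδ0.le
      rw [hδ] at e5 ⊢
      linarith
    calc ((Pts α S M k X).ncard : ℝ) ≤ ∑ j ∈ Finset.range (J + 1),
          ((Exc α S (1 / ((M : ℝ) + j * δ)) (Bj j)).ncard : ℝ) := by exact_mod_cast h1
      _ ≤ ∑ j ∈ Finset.range (J + 1), C j * X ^ (1 / (q : ℝ) + ε) := Finset.sum_le_sum h2
      _ = _ := by rw [Finset.sum_mul]
  · intro κ hκ hκM
    obtain ⟨C, hC0, hC⟩ := hM q hq α hα S κ hκ hκM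
    refine ⟨C, hC0, fun B hB => ⟨(hC B hB).1, (hC B hB).2.trans ?_⟩⟩
    apply mul_le_mul_of_nonneg_left _ hC0.le
    apply Real.rpow_le_rpow_of_exponent_le hB
    apply mul_le_mul_of_nonneg_left _ hκ.le
    linarith

end Pool.Agent.Results.MP_4d5ce1_nt.LargeHeightPoints
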